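import Pool.Agent.R889.PZ.TMain

/-!
# Almost every substitution forces pure point spectrum of non-commuting compositions

Let `M i` be finitely many nonnegative unimodular irreducible Pisot matrices of the same size with
right eigenvectors `u i` of sum one. For `B` large and all `T` there are `K` and `c > 0` such that
for all `i` and `n ≥ K` all the substitutions `τ` with incidence matrix `M i ^ n` and discrepancy at
most `B`, with the exception of a proportion of at most `exp (-c * |M i ^ n|)`, have the following
property: for all `ρ` of determinant `± 1` with images of length at most `T`, every composition of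
`ρ ∘ τ` on both sides with arbitrary numbers of tube blocks (`ρ' ∘ τ'`, `τ'` of discrepancy at most
`B` with incidence matrix `M j ^ k`, `k ≥ K`) is unimodular, irreducible and Pisot, satisfies the
geometric coincidence condition, and `TileOK` holds.

`TileOK S`: the subshift has exactly one shift invariant probability measure, and for all positive
tile lengths, in particular for the positive left Perron-Frobenius eigenvector (the self-similar
tilings), the translation action on the hull has pure point spectrum (`hull`, `IsEig`, `PurePoint`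
are defined in `Pool/Agent/Y316/Tile/Defs.lean`, `TileOK` in `Pool/Agent/Y316/Tile/OK.lean`,
helpers 316, 576 and 369). The combinatorial part is in `Pool/Agent/R889/PZ`, on top of
`Pool/Agent/H812R2/PI` and `Pool/Agent/TH100/Pisot`. Nothing is assumed about the first cohomology.
-/

set_option autoImplicit false

namespace Pool.Agent.Results.MP_4168de_an.GenericTilings

open Pool.Agent.H812R2.PI Pool.Agent.R889.PZ Pool.Agent.Y316.Tile
open scoped BigOperators

theorem result {m : ℕ} {ι : Type} [Fintype ι] (M : ι → Matrix (Fin (m+1)) (Fin (m+1)) ℤ)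
    (hnn : ∀ i a b, 0 ≤ M i a b) (hM : ∀ i, PisotMat (M i)) (lam : ι → ℝ) (hlam : ∀ i, 1 < lam i)
    (u : ι → Fin (m+1) → ℝ) (hu : ∀ i a, ∑ b, (M i a b : ℝ) * u i b = lam i * u i a)
    (husum : ∀ i, ∑ a, u i a = 1) :
    ∃ B₀ : ℝ, ∀ B ≥ B₀, ∀ T : ℕ, ∃ (K : ℕ) (c : ℝ), 0 < c ∧ ∀ i, ∀ n ≥ K,
      (SubSet (u i) (M i ^ n) B).Finite ∧ (SubSet (u i) (M i ^ n) B).Nonempty ∧
      ({τ | τ ∈ SubSet (u i) (M i ^ n) B ∧ ¬ ∀ ρ : Fin (m+1) → List (Fin (m+1)),
          ((inc ρ).det = 1 ∨ (inc ρ).det = -1) → (∀ a, (ρ a).length ≤ T) →
          ∀ l₁ l₂ : List (Fin (m+1) → List (Fin (m+1))),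
          (∀ τ' ∈ l₁ ++ l₂, TubeBlock M u B T K τ') →
            PisotMat (inc (compList (l₁ ++ [comp ρ τ] ++ l₂))) ∧
            Coinc (compList (l₁ ++ [comp ρ τ] ++ l₂)) ∧
            TileOK (compList (l₁ ++ [comp ρ τ] ++ l₂))}.ncard : ℝ) ≤
        Real.exp (-(c * ∑ a, ∑ b, ((M i ^ n) a b : ℝ))) *
          ((SubSet (u i) (M i ^ n) B).ncard : ℝ) :=
  main_generic_tile M hnn hM lam hlam u hu husum

end Pool.Agent.Results.MP_4168de_an.GenericTilings
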