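import Pool.Agent.R889.PZ.UEx
import Pool.Agent.R200.PT.Coinc

/-!
# A zero-one law for pure point spectrum of tilings of uniformly Pisot families of substitutions

Let `F` be a finite family of substitutions with determinants `± 1` on the same alphabet of at least
two letters, with arbitrary non-commuting incidence matrices, which is uniformly Pisot: the
incidence matrices of all long compositions are positive, and they contract exponentially, up to a
constant, all vectors whose images have entries of both signs. Then either no composition of
members of the family satisfies the geometric coincidence condition, or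

* some word `W` has the property that all compositions which contain it are unimodular irreducible
  Pisot substitutions which satisfy the condition, are uniquely ergodic and whose tilings, for all
  positive tile lengths, in particular the self-similar ones, have pure point spectrum,
* the probability that a random composition of `k` members does not have these properties is
  exponentially small in `k`, for all positive probability weights, and
* for every composition `w` which satisfies the condition all compositions which contain a
  sufficiently high power of `w` have these properties.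

Families whose incidence matrices are powers of one Pisot matrix, and families of blocks `ρ ∘ τ`
with arbitrary `ρ` of determinant `± 1` and `τ` with incidence matrix a high power of a Pisot
matrix are uniformly Pisot (`unif_of_powers`, `unif_of_blocks` in `Pool/Agent/R889/PZ/UEx`).

`hull S ell`, `Moves`, `IsEig`, `hullMeasure`, `IsInv`, `PurePoint` are defined in
`Pool/Agent/Y316/Tile/Defs.lean`, `TileOK` in `Pool/Agent/Y316/Tile/OK.lean`. The combinatorial part
is the proof of `MP_e732b0_an.UniformZeroOneLaw` (helper889, `Pool/Agent/R889/PZ`), the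
spectral part the library `Pool/Agent/Y316/Tile` (helper316 with helpers 576 and 369); the passage
from the coincidence condition to `TileOK` is in `Pool/Agent/R200/PT`.
-/

set_option autoImplicit false

namespace Pool.Agent.Results.MP_4168de_an.ZeroOneLawTilings

open Pool.Agent.H812R2.PI Pool.Agent.R889.PZ Pool.Agent.Y316.Tile Pool.Agent.R200.PT
open scoped BigOperators

/-- unimodular irreducible Pisot, geometric coincidences, unique ergodicity and pure point spectrum
of the tilings -/
def Fine {m : ℕ} (S : Fin (m+1) → List (Fin (m+1))) : Prop :=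
  PisotMat (inc S) ∧ Coinc S ∧ TileOK S

open Classical in
theorem result {m : ℕ} (hm : 1 ≤ m) {ι : Type} [Fintype ι] (F : ι → Fin (m+1) → List (Fin (m+1)))
    (hdet : ∀ i, (inc (F i)).det = 1 ∨ (inc (F i)).det = -1) (hU : UnifPisot F) :
    (∀ w : List ι, w ≠ [] → ¬ Coinc (compList (w.map F))) ∨
    ((∃ W : List ι, W ≠ [] ∧ ∀ l₁ l₂ : List ι, Fine (compList ((l₁ ++ W ++ l₂).map F))) ∧
      (∀ p : ι → ℝ, (∀ i, 0 < p i) → ∑ i, p i = 1 → ∃ C c : ℝ, 0 < c ∧ ∀ k : ℕ,
        ∑ f : Fin k → ι, (if Fine (compList (List.ofFn fun j => F (f j))) then 0
          else ∏ j, p (f j)) ≤ C * Real.exp (-(c * k))) ∧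
      ∀ w : List ι, w ≠ [] → Coinc (compList (w.map F)) → ∃ K : ℕ, ∀ k ≥ K, ∀ l₁ l₂ : List ι,
        Fine (compList ((l₁ ++ (List.replicate k w).flatten ++ l₂).map F))) := by
  have hwa : ∀ w : List ι, w ≠ [] → Coinc (compList (w.map F)) → ∃ K : ℕ, ∀ k ≥ K,
      ∀ l₁ l₂ : List ι, Fine (compList ((l₁ ++ (List.replicate k w).flatten ++ l₂).map F)) := by
    intro w hw hg
    obtain ⟨K, hK⟩ := word_absorb hm F hdet hU w hw hg
    exact ⟨K, fun k hk l₁ l₂ =>
      ⟨(hK k hk l₁ l₂).1, (hK k hk l₁ l₂).2.1, tile_of_coinc (hK k hk l₁ l₂).1 (hK k hk l₁ l₂).2.1⟩⟩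
  by_cases h : ∃ w : List ι, w ≠ [] ∧ Coinc (compList (w.map F))
  · right
    obtain ⟨w, hw, hg⟩ := h
    obtain ⟨K, hK⟩ := hwa w hw hg
    obtain ⟨W, hW⟩ : ∃ W : List ι, W = (List.replicate (K + 1) w).flatten := ⟨_, rfl⟩
    have hW0 : W ≠ [] := by
      rw [hW, List.replicate_succ, List.flatten_cons]
      intro h
      exact hw (List.append_eq_nil_iff.1 h).1
    have hWf : ∀ l₁ l₂ : List ι, Fine (compList ((l₁ ++ W ++ l₂).map F)) := by
      intro l₁ l₂
      rw [hW]
      exact hK (K + 1) (Nat.le_succ K) l₁ l₂
    refine ⟨⟨W, hW0, hWf⟩, fun p hp hps => ?_, hwa⟩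
    obtain ⟨C, c, hc, h⟩ := wt_exp p hp hps W hW0
    refine ⟨C, c, hc, fun k => le_trans ?_ (h k)⟩
    unfold wt
    refine Finset.sum_le_sum fun f _ => ?_
    by_cases hf : Has W f
    · have hgood : Fine (compList (List.ofFn fun j => F (f j))) := by
        obtain ⟨l₁, l₂, hl⟩ := hf
        have h3 : (List.ofFn fun j => F (f j)) = (l₁ ++ W ++ l₂).map F := by
          rw [← hl, List.map_ofFn]
          rfl
        rw [h3]
        exact hWf l₁ l₂
      rw [if_pos hf, if_pos hgood]
    · rw [if_neg hf]
      have h0 : 0 ≤ ∏ j, p (f j) := Finset.prod_nonneg fun j _ => (hp _).le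
      split_ifs
      · exact h0
      · exact le_rfl
  · left
    intro w hw hg
    exact h ⟨w, hw, hg⟩

end Pool.Agent.Results.MP_4168de_an.ZeroOneLawTilings
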